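import Mathlib
import Pool.Agent.H15.SidDefs
import Pool.Agent.H15.SidProof

set_option autoImplicit false

namespace Pool.Agent.Results.MP_30cdc8_co.Linear
open Finset Pool.Agent.H15.Sid

theorem result : ∀ r : ℕ, 2 ≤ r → ∃ f : ℕ → ℕ,
    ∀ (Δ m : ℕ) (F : Finset (Finset (Fin m))), Uniform r F → Partite r F →
      (∀ v : Fin m, (F.filter (fun e => v ∈ e)).card ≤ Δ) →
      sidExp r F ≤ ((f Δ * F.card : ℕ) : EReal) := by
  intro r hr
  exact ⟨fun Δ => _, fun Δ m F hu hp hΔ => Pool.Agent.H15.Sid.main r hr Δ m F hu hp hΔ⟩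

end Pool.Agent.Results.MP_30cdc8_co.Linear
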